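import Mathlib
import Pool.Graph.R_seed8.Helper975.RDR.Core1

/-!
# Descent from the decomposition field

`N/L` is a finite Galois extension, `w` a valuation of `N`, `D` its decomposition group. If
`a ∈ L` is a `p`-th power modulo `e ^ p` in the fixed field of `D`, then it is one in `L`.
-/

set_option autoImplicit false

namespace Pool.Agent.H16R

open Pool.Agent.Helper975.RDR

section geom

variable {N Γ : Type*} [Field N] [LinearOrderedCommGroupWithZero Γ] (w : Valuation N Γ)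

/-- geometric sum -/
def gs (m : ℕ) (x : N) : N := ∑ i ∈ Finset.range m, x ^ i

theorem gs_one (x : N) : gs 1 x = 1 := by simp [gs]

theorem gs_add (m n : ℕ) (x : N) : gs (m + n) x = gs m x * x ^ n + gs n x := by
  unfold gs
  rw [add_comm m n, Finset.sum_range_add, Finset.sum_mul, add_comm]
  congr 1
  apply Finset.sum_congr rfl
  intro i _
  rw [pow_add, mul_comm]

theorem gs_coprime {x : N} (hx : w x ≤ 1) : ∀ k m n : ℕ, m + n ≤ k → Nat.Coprime m n →
    w (gs m x) < 1 → w (gs n x) < 1 → False := by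
  intro k
  induction k with
  | zero =>
    intro m n hk hc hm hn
    have h1 : m = 0 := by omega
    have h2 : n = 0 := by omega
    subst h1 h2
    simp at hc
  | succ k ih =>
    intro m n hk hc hm hn
    rcases Nat.eq_zero_or_pos m with h0 | h0
    · subst h0
      rw [Nat.coprime_zero_left] at hc
      subst hc
      rw [gs_one, map_one] at hn
      exact lt_irrefl _ hn
    rcases Nat.eq_zero_or_pos n with h1 | h1
    · subst h1
      rw [Nat.coprime_zero_right] at hc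
      subst hc
      rw [gs_one, map_one] at hm
      exact lt_irrefl _ hm
    have key : ∀ m n : ℕ, w (gs (m + n) x) < 1 → w (gs m x) < 1 → w (gs n x) < 1 := by
      intro m n h1 h2
      have e : gs n x = gs (m + n) x - gs m x * x ^ n := by rw [gs_add]; ring
      rw [e]
      apply w.map_sub_lt h1
      rw [map_mul, map_pow]
      exact mul_lt_one_of_lt_of_le h2 (pow_le_one' hx n)
    rcases le_total m n with h2 | h2
    · obtain ⟨n', rfl⟩ := Nat.exists_eq_add_of_le h2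
      refine ih m n' (by omega) ?_ hm (key m n' hn hm)
      rwa [Nat.coprime_self_add_right] at hc
    · obtain ⟨m', rfl⟩ := Nat.exists_eq_add_of_le h2
      refine ih m' n (by omega) ?_ (key n m' hm hn) hn
      rwa [Nat.coprime_self_add_left] at hc

theorem gs_le {x : N} (hx : w x ≤ 1) (m : ℕ) : w (gs m x) ≤ 1 := by
  apply w.map_sum_le
  intro i _
  rw [map_pow]
  exact pow_le_one' hx i

theorem gs_big {x : N} (hx : 1 < w x) (k : ℕ) : w (gs (k + 1) x) = w x ^ k := by
  induction k with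
  | zero => rw [zero_add, gs_one, map_one, pow_zero]
  | succ k ih =>
    have e : gs (k + 1 + 1) x = gs (k + 1) x + x ^ (k + 1) := by
      unfold gs; rw [Finset.sum_range_succ]
    rw [e]
    have h : w (gs (k + 1) x) < w (x ^ (k + 1)) := by
      rw [ih, map_pow]
      exact pow_lt_pow_right₀ hx (Nat.lt_succ_self k)
    rw [add_comm, w.map_add_eq_of_lt_left (by exact h), map_pow]

theorem exists_prime_good {ι : Type*} [Finite ι] (x : ι → N) :
    ∃ m : ℕ, m.Prime ∧ ∀ i, w (x i) ≤ 1 → w (gs m (x i)) = 1 := by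
  have hfin : (⋃ i, {m : ℕ | m.Prime ∧ w (x i) ≤ 1 ∧ w (gs m (x i)) < 1}).Finite := by
    apply Set.finite_iUnion
    intro i
    apply Set.Subsingleton.finite
    rintro m ⟨h1, h2, h3⟩ n ⟨h4, h5, h6⟩
    by_contra hne
    exact gs_coprime w h2 (m + n) m n le_rfl ((Nat.coprime_primes h1 h4).2 hne) h3 h6
  obtain ⟨m, hm, hm'⟩ := Nat.infinite_setOfPred_prime.exists_notMem_finite hfin
  refine ⟨m, hm, fun i hi => ?_⟩
  refine le_antisymm (gs_le w hi m) ?_
  by_contra hlt
  push Not at hlt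
  exact hm' (Set.mem_iUnion.2 ⟨i, hm, hi, hlt⟩)

end geom

section galois

variable {L N Γ : Type*} [Field L] [Field N] [Algebra L N] [LinearOrderedCommGroupWithZero Γ]
  (w : Valuation N Γ)

theorem gs_map (h : N ≃ₐ[L] N) (m : ℕ) (x : N) : h (gs m x) = gs m (h x) := by
  unfold gs
  rw [map_sum]
  simp

variable (L)

/-- Nagata's trick -/
theorem exists_t [FiniteDimensional L N] (s : N) (hs : w s ≤ 1) :
    ∃ t : N, w t = 1 ∧ (∀ h : N ≃ₐ[L] N, w (h t) ≤ 1) ∧
      (∀ h : N ≃ₐ[L] N, w (h (t * s)) ≤ 1) ∧ ∀ h : N ≃ₐ[L] N, 1 < w (h s) → w (h t) < 1 := by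
  obtain ⟨m, hm, hgood⟩ := exists_prime_good w (fun h : N ≃ₐ[L] N => h s)
  obtain ⟨k, rfl⟩ : ∃ k, m = k + 1 := ⟨m - 1, by have := hm.pos; omega⟩
  have hk : 1 ≤ k := by have := hm.two_le; omega
  have e : ∀ h : N ≃ₐ[L] N, h ((gs (k + 1) s)⁻¹) = (gs (k + 1) (h s))⁻¹ := by
    intro h
    rw [map_inv₀, gs_map]
  have big : ∀ h : N ≃ₐ[L] N, 1 < w (h s) → w (h ((gs (k + 1) s)⁻¹)) = (w (h s) ^ k)⁻¹ := by
    intro h hh
    rw [e, map_inv₀, gs_big w hh]
  have small : ∀ h : N ≃ₐ[L] N, w (h s) ≤ 1 → w (h ((gs (k + 1) s)⁻¹)) = 1 := by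
    intro h hh
    rw [e, map_inv₀, hgood h hh, inv_one]
  have lt1 : ∀ h : N ≃ₐ[L] N, 1 < w (h s) → w (h ((gs (k + 1) s)⁻¹)) < 1 := by
    intro h hh
    rw [big h hh]
    apply inv_lt_one_of_one_lt₀
    exact one_lt_pow₀ hh (by omega)
  refine ⟨(gs (k + 1) s)⁻¹, small 1 hs, fun h => ?_, fun h => ?_, lt1⟩
  · rcases le_or_gt (w (h s)) 1 with hh | hh
    · exact (small h hh).le
    · exact (lt1 h hh).le
  · rw [map_mul, map_mul]
    rcases le_or_gt (w (h s)) 1 with hh | hh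
    · rw [small h hh, one_mul]; exact hh
    · rw [big h hh]
      have h0 : 0 < w (h s) := zero_lt_one.trans hh
      rw [inv_mul_le_iff₀ (pow_pos h0 k), mul_one]
      calc w (h s) = w (h s) ^ 1 := (pow_one _).symm
        _ ≤ w (h s) ^ k := pow_le_pow_right₀ hh.le hk

/-- the decomposition group -/
def dec : Subgroup (N ≃ₐ[L] N) where
  carrier := {g | ∀ y, w (g y) = w y}
  mul_mem' := by
    intro g h hg hh y
    rw [AlgEquiv.mul_apply, hg, hh]
  one_mem' := fun y => rfl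
  inv_mem' := by
    intro g hg y
    have h1 := hg (g⁻¹ y)
    rw [← h1, ← AlgEquiv.mul_apply, mul_inv_cancel, AlgEquiv.one_apply]

variable {L}

theorem mem_dec {g : N ≃ₐ[L] N} : g ∈ dec L w ↔ ∀ y, w (g y) = w y := Iff.rfl

theorem dec_val {g : N ≃ₐ[L] N} (hg : g ∈ dec L w) (y : N) : w (g y) = w y := hg y

theorem exists_moved [FiniteDimensional L N] {g : N ≃ₐ[L] N} (hg : g ∉ dec L w) :
    ∃ s, w s ≤ 1 ∧ 1 < w (g s) := by
  by_contra hcon
  push Not at hcon
  apply hg
  have mono : ∀ x y, w x ≤ w y → w (g x) ≤ w (g y) := by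
    intro x y hxy
    by_cases hy : y = 0
    · subst hy
      rw [map_zero] at hxy
      have : w x = 0 := le_antisymm hxy zero_le
      rw [map_eq_zero] at this
      rw [this]
    · have h1 := hcon (x / y) (by
        rw [map_div₀]
        exact div_le_one_of_le₀ hxy zero_le)
      rw [map_div₀, map_div₀] at h1
      have h2 : 0 < w (g y) := by
        rw [w.pos_iff]
        exact (_root_.map_ne_zero g).2 hy
      rwa [div_le_one₀ h2] at h1
  have hord : 0 < orderOf g := orderOf_pos g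
  obtain ⟨k, hk⟩ : ∃ k, orderOf g = k + 1 := ⟨orderOf g - 1, by omega⟩
  have hgk : (g ^ (k + 1)) = 1 := by rw [← hk]; exact pow_orderOf_eq_one g
  intro y
  rcases le_total (w (g y)) (w y) with h | h
  · have hn : ∀ n : ℕ, w ((g ^ (n + 1)) y) ≤ w (g y) := by
      intro n
      induction n with
      | zero => rw [zero_add, pow_one]
      | succ n ih =>
        rw [pow_succ', AlgEquiv.mul_apply]
        exact (mono _ _ ih).trans (mono _ _ h)
    refine le_antisymm h ?_
    have := hn k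
    rwa [hgk, AlgEquiv.one_apply] at this
  · have hn : ∀ n : ℕ, w (g y) ≤ w ((g ^ (n + 1)) y) := by
      intro n
      induction n with
      | zero => rw [zero_add, pow_one]
      | succ n ih =>
        rw [pow_succ', AlgEquiv.mul_apply]
        exact (mono _ _ h).trans (mono _ _ ih)
    refine le_antisymm ?_ h
    have := hn k
    rwa [hgk, AlgEquiv.one_apply] at this

/-- an element separating `w` from its other conjugates -/
theorem exists_sep [FiniteDimensional L N] : ∃ t : N, w t = 1 ∧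
    (∀ h : N ≃ₐ[L] N, w (h t) ≤ 1) ∧ ∀ h : N ≃ₐ[L] N, h ∉ dec L w → w (h t) < 1 := by
  classical
  have h1 : ∀ g : N ≃ₐ[L] N, ∃ t : N, w t = 1 ∧ (∀ h : N ≃ₐ[L] N, w (h t) ≤ 1) ∧
      (g ∉ dec L w → w (g t) < 1) := by
    intro g
    by_cases hg : g ∈ dec L w
    · exact ⟨1, map_one w, fun h => by rw [map_one, map_one], fun h => absurd hg h⟩
    · obtain ⟨s, hs, hgs⟩ := exists_moved w hg
      obtain ⟨t, t1, t2, -, t4⟩ := exists_t L w s hs
      exact ⟨t, t1, t2, fun _ => t4 g hgs⟩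
  choose t t1 t2 t3 using h1
  have : Fintype (N ≃ₐ[L] N) := Fintype.ofFinite _
  refine ⟨∏ g, t g, ?_, ?_, ?_⟩
  · rw [map_prod]
    exact Finset.prod_eq_one (fun g _ => t1 g)
  · intro h
    rw [map_prod, map_prod]
    exact Finset.prod_le_one' (fun g _ => t2 g h)
  · intro h hh
    rw [map_prod, map_prod, ← Finset.mul_prod_erase _ _ (Finset.mem_univ h)]
    exact mul_lt_one_of_lt_of_le (t3 h hh) (Finset.prod_le_one' (fun g _ => t2 g h))

/-- the trace over the cosets of a subgroup -/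
noncomputable def tr (D : Subgroup (N ≃ₐ[L] N)) [Fintype ((N ≃ₐ[L] N) ⧸ D)] (y : N) : N :=
  ∑ q : (N ≃ₐ[L] N) ⧸ D, (Quotient.out q) y

theorem tr_fixed (D : Subgroup (N ≃ₐ[L] N)) [Fintype ((N ≃ₐ[L] N) ⧸ D)] {y : N}
    (hy : ∀ d ∈ D, d y = y) (g : N ≃ₐ[L] N) : g (tr D y) = tr D y := by
  unfold tr
  rw [map_sum]
  apply Fintype.sum_equiv (MulAction.toPerm g)
  intro q
  have h1 : MulAction.toPerm g q = (QuotientGroup.mk (g * Quotient.out q) : (N ≃ₐ[L] N) ⧸ D) := by
    conv_lhs => rw [← QuotientGroup.out_eq' q]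
    rfl
  rw [h1]
  obtain ⟨d, hd⟩ := QuotientGroup.mk_out_eq_mul D (g * Quotient.out q)
  rw [hd, AlgEquiv.mul_apply, AlgEquiv.mul_apply, hy d d.2]

theorem descent [FiniteDimensional L N] [IsGalois L N] {p : ℕ} (hp : p.Prime) {a e : L} {b : N}
    (he0 : e ≠ 0) (ha : w (algebraMap L N a) ≤ 1) (he1 : w (algebraMap L N e) ≤ 1)
    (hpe : w (p : N) ≤ w (algebraMap L N e) ^ p)
    (hb : ∀ g : N ≃ₐ[L] N, g ∈ dec L w → g b = b)
    (hab : w (algebraMap L N a - b ^ p) ≤ w (algebraMap L N e) ^ p) :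
    ∃ b' : L, w (algebraMap L N a - algebraMap L N b' ^ p) ≤ w (algebraMap L N e) ^ p := by
  classical
  have : Fintype (N ≃ₐ[L] N) := Fintype.ofFinite _
  have : Fintype ((N ≃ₐ[L] N) ⧸ dec L w) := Fintype.ofFinite _
  have : Fintype (dec L w) := Fintype.ofFinite _
  set A := algebraMap L N a with hA
  set E := algebraMap L N e with hE
  have hE0 : E ≠ 0 := (_root_.map_ne_zero _).2 he0
  have hEp1 : w E ^ p ≤ 1 := pow_le_one' he1 p
  have hEp0 : 0 < w E ^ p := pow_pos (w.pos_iff.2 hE0) p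
  have hb1 : w b ≤ 1 := by
    have h1 : w (b ^ p) ≤ 1 := by
      have e1 : b ^ p = A - (A - b ^ p) := by ring
      rw [e1]; exact w.map_sub_le ha (hab.trans hEp1)
    rw [map_pow] at h1
    exact (pow_le_one_iff hp.ne_zero).1 h1
  set s := (b ^ p - A) / E ^ p with hs
  have hs1 : w s ≤ 1 := by
    rw [hs, map_div₀, map_pow, w.map_sub_swap, div_le_one₀ hEp0]
    exact hab
  have hsE : b ^ p = A + E ^ p * s := by
    rw [hs]; field_simp; ring
  have hsD : ∀ g : N ≃ₐ[L] N, g ∈ dec L w → g s = s := by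
    intro g hg
    rw [hs, map_div₀, map_sub, map_pow, map_pow, hb g hg, hA, hE, AlgEquiv.commutes,
      AlgEquiv.commutes]
  obtain ⟨t0, a1, a2, a3⟩ := exists_sep (L := L) w
  obtain ⟨t1, b1, b2, b3, -⟩ := exists_t L w s hs1
  obtain ⟨t2, c1, c2, c3, -⟩ := exists_t L w b hb1
  -- `u0`
  set u0 := t0 * t1 * t2 with hu0
  have u0_one : w u0 = 1 := by rw [hu0, map_mul, map_mul, a1, b1, c1, one_mul, one_mul]
  have u0_le : ∀ h : N ≃ₐ[L] N, w (h u0) ≤ 1 := by
    intro h
    rw [hu0, map_mul, map_mul, map_mul, map_mul]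
    exact mul_le_one' (mul_le_one' (a2 h) (b2 h)) (c2 h)
  have u0_lt : ∀ h : N ≃ₐ[L] N, h ∉ dec L w → w (h u0) < 1 := by
    intro h hh
    rw [hu0, map_mul, map_mul, map_mul, map_mul]
    exact mul_lt_one_of_lt_of_le (mul_lt_one_of_lt_of_le (a3 h hh) (b2 h)) (c2 h)
  have u0_s : ∀ h : N ≃ₐ[L] N, w (h (u0 * s)) ≤ 1 := by
    intro h
    have e1 : u0 * s = t0 * (t1 * s) * t2 := by rw [hu0]; ring
    rw [e1, map_mul h (t0 * (t1 * s)), map_mul h t0, map_mul w, map_mul w]
    exact mul_le_one' (mul_le_one' (a2 h) (b3 h)) (c2 h)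
  have u0_b : ∀ h : N ≃ₐ[L] N, w (h (u0 * b)) ≤ 1 := by
    intro h
    have e1 : u0 * b = t0 * t1 * (t2 * b) := by rw [hu0]; ring
    rw [e1, map_mul h (t0 * t1), map_mul h t0, map_mul w, map_mul w]
    exact mul_le_one' (mul_le_one' (a2 h) (b2 h)) (c3 h)
  -- `u`
  set u := ∏ d : dec L w, (d : N ≃ₐ[L] N) u0 with hu
  have u_fix : ∀ g ∈ dec L w, g u = u := by
    intro g hg
    rw [hu, map_prod]
    apply Fintype.prod_equiv (Equiv.mulLeft (⟨g, hg⟩ : dec L w))
    intro d
    rfl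
  have u_one : w u = 1 := by
    rw [hu, map_prod]
    apply Finset.prod_eq_one
    intro d _
    rw [dec_val w d.2, u0_one]
  have u_val : ∀ (h : N ≃ₐ[L] N) (d : dec L w), w (h ((d : N ≃ₐ[L] N) u0)) ≤ 1 :=
    fun h d => u0_le (h * d)
  have u_le : ∀ h : N ≃ₐ[L] N, w (h u) ≤ 1 := by
    intro h
    rw [hu, map_prod, map_prod]
    exact Finset.prod_le_one' (fun d _ => u_val h d)
  have u_lt : ∀ h : N ≃ₐ[L] N, h ∉ dec L w → w (h u) < 1 := by
    intro h hh
    rw [hu, map_prod, map_prod, ← Finset.mul_prod_erase _ _ (Finset.mem_univ (1 : dec L w))]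
    exact mul_lt_one_of_lt_of_le (u0_lt h hh) (Finset.prod_le_one' (fun d _ => u_val h d))
  have u_mul : ∀ (h : N ≃ₐ[L] N) (x : N), (∀ h : N ≃ₐ[L] N, w (h (u0 * x)) ≤ 1) →
      w (h (u * x)) ≤ 1 := by
    intro h x hx
    have e1 : u * x = (u0 * x) * ∏ d ∈ Finset.univ.erase (1 : dec L w), (d : N ≃ₐ[L] N) u0 := by
      rw [hu, ← Finset.mul_prod_erase _ _ (Finset.mem_univ (1 : dec L w))]
      have : ((1 : dec L w) : N ≃ₐ[L] N) u0 = u0 := rfl
      rw [this]; ring
    rw [e1, map_mul h, map_mul w, map_prod, map_prod]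
    exact mul_le_one' (hx h) (Finset.prod_le_one' (fun d _ => u_val h d))
  have u_s : ∀ h : N ≃ₐ[L] N, w (h (u * s)) ≤ 1 := fun h => u_mul h s u0_s
  have u_b : ∀ h : N ≃ₐ[L] N, w (h (u * b)) ≤ 1 := fun h => u_mul h b u0_b
  -- the elements of `L`
  have hc0 : tr (dec L w) u ∈ Set.range (algebraMap L N) :=
    (IsGalois.mem_range_algebraMap_iff_fixed _).2 (tr_fixed _ u_fix)
  have hc1 : tr (dec L w) (u * b) ∈ Set.range (algebraMap L N) :=
    (IsGalois.mem_range_algebraMap_iff_fixed _).2 (tr_fixed _ (fun d hd => by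
      rw [map_mul, u_fix d hd, hb d hd]))
  obtain ⟨c0, hc0⟩ := hc0
  obtain ⟨c1, hc1⟩ := hc1
  have v0 : w (tr (dec L w) u) = 1 := by
    unfold tr
    rw [← Finset.add_sum_erase _ _ (Finset.mem_univ
      (QuotientGroup.mk 1 : (N ≃ₐ[L] N) ⧸ dec L w))]
    have h1 : w ((Quotient.out (QuotientGroup.mk 1 : (N ≃ₐ[L] N) ⧸ dec L w)) u) = 1 := by
      obtain ⟨d, hd⟩ := QuotientGroup.mk_out_eq_mul (dec L w) 1
      rw [hd, one_mul, dec_val w d.2, u_one]
    have h2 : w (∑ q ∈ Finset.univ.erase (QuotientGroup.mk 1 : (N ≃ₐ[L] N) ⧸ dec L w),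
        (Quotient.out q) u) < 1 := by
      apply w.map_sum_lt one_ne_zero
      intro q hq
      apply u_lt
      intro hmem
      apply (Finset.mem_erase.1 hq).1
      rw [← QuotientGroup.out_eq' q, QuotientGroup.eq]
      simpa using hmem
    rw [← h1] at h2
    rw [w.map_add_eq_of_lt_left h2, h1]
  refine ⟨c1 / c0, ?_⟩
  rw [map_div₀, hc0, hc1, div_pow]
  have hne : tr (dec L w) u ≠ 0 := by
    intro h0
    rw [h0, map_zero] at v0
    exact zero_ne_one v0
  have e1 : A - tr (dec L w) (u * b) ^ p / tr (dec L w) u ^ p =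
      (A * tr (dec L w) u ^ p - tr (dec L w) (u * b) ^ p) / tr (dec L w) u ^ p := by
    field_simp
  rw [e1, map_div₀, map_pow, v0, one_pow, div_one]
  have f0 := fr_sum w hp Finset.univ (fun q : (N ≃ₐ[L] N) ⧸ dec L w => (Quotient.out q) u) 1
    (fun q _ => u_le _)
  have f1 := fr_sum w hp Finset.univ (fun q : (N ≃ₐ[L] N) ⧸ dec L w => (Quotient.out q) (u * b)) 1
    (fun q _ => u_b _)
  rw [one_pow, mul_one] at f0 f1
  have e2 : ∑ q : (N ≃ₐ[L] N) ⧸ dec L w, ((Quotient.out q) (u * b)) ^ p =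
      A * ∑ q : (N ≃ₐ[L] N) ⧸ dec L w, ((Quotient.out q) u) ^ p +
      E ^ p * ∑ q : (N ≃ₐ[L] N) ⧸ dec L w, (Quotient.out q) (u ^ p * s) := by
    rw [Finset.mul_sum, Finset.mul_sum, ← Finset.sum_add_distrib]
    apply Finset.sum_congr rfl
    intro q _
    rw [← map_pow, ← map_pow, mul_pow, hsE]
    have hA' : ∀ g : N ≃ₐ[L] N, g A = A := fun g => g.commutes a
    have hE' : ∀ g : N ≃ₐ[L] N, g E = E := fun g => g.commutes e
    rw [mul_add, map_add, map_mul, map_mul, hA', map_mul, map_mul, map_pow (Quotient.out q) E, hE']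
    ring
  have e3 : A * tr (dec L w) u ^ p - tr (dec L w) (u * b) ^ p =
      A * (tr (dec L w) u ^ p - ∑ q : (N ≃ₐ[L] N) ⧸ dec L w, ((Quotient.out q) u) ^ p) -
      (tr (dec L w) (u * b) ^ p - ∑ q : (N ≃ₐ[L] N) ⧸ dec L w, ((Quotient.out q) (u * b)) ^ p) -
      E ^ p * ∑ q : (N ≃ₐ[L] N) ⧸ dec L w, (Quotient.out q) (u ^ p * s) := by
    rw [e2]; ring
  rw [e3]
  apply w.map_sub_le
  · apply w.map_sub_le
    · rw [map_mul]
      exact (mul_le_of_le_one_left' ha).trans (f0.trans hpe)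
    · exact f1.trans hpe
  · rw [map_mul, map_pow]
    refine mul_le_of_le_one_right zero_le ?_
    apply w.map_sum_le
    intro q _
    have e4 : u ^ p * s = u ^ (p - 1) * (u * s) := by
      have : p = (p - 1) + 1 := by have := hp.pos; omega
      conv_lhs => rw [this]
      rw [pow_succ]; ring
    rw [e4, map_mul, map_pow, map_mul w, map_pow]
    exact mul_le_one' (pow_le_one' (u_le _) _) (u_s _)

end galois

end Pool.Agent.H16R
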