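import Mathlib
import Pool.Graph.R_seed8.Y739.RDR.Special
import Pool.Agent.H16R.Nagata

/-!
# A separable henselian maximal bad field

Variant of `exists_maximal_bad` and `exists_special_bad` of the library (proofs partly copied),
without the assumption that the valuation is invariant under the automorphisms over `K`: the
construction stays in the separable closure of `K`, and the maximal field is henselian by
`Nagata.descent`.
-/

set_option autoImplicit false

namespace Pool.Agent.H16R

open Polynomial Pool.Agent.Helper975.RDR Pool.Agent.Y739.RDR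

variable {K Ω Γ : Type*} [Field K] [Field Ω] [Algebra K Ω] [IsAlgClosed Ω]
  [Algebra.IsAlgebraic K Ω] [LinearOrderedCommGroupWithZero Γ] (v : Valuation Ω Γ)

/-- the henselian property, in terms of automorphisms -/
theorem invariant_of_maximal {p : ℕ} (hp : p.Prime) {a e : Ω} {L : IntermediateField K Ω}
    (hB : Bad v p a e L) (hLs : L ≤ separableClosure K Ω)
    (hmax : ∀ z ∈ separableClosure K Ω, z ∉ L → ∃ b ∈ ext1 L z, v (a - b ^ p) ≤ v e ^ p)
    (σ : Ω ≃ₐ[L] Ω) (x : Ω) : v (σ x) = v x := by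
  by_contra hne
  have hLsep : Algebra.IsSeparable K L := (le_separableClosure_iff K Ω L).1 hLs
  have : Algebra.IsAlgebraic L Ω := Algebra.IsAlgebraic.tower_top (K := K) L
  -- reduction to separable elements
  obtain ⟨y, hy, hvy⟩ : ∃ y ∈ separableClosure K Ω, v (σ y) ≠ v y := by
    obtain ⟨q, hq⟩ := ExpChar.exists K
    have hq' : ExpChar (separableClosure K Ω) q :=
      expChar_of_injective_algebraMap (algebraMap K (separableClosure K Ω)).injective q
    obtain ⟨n, s, hs⟩ := (isPurelyInseparable_iff_pow_mem (separableClosure K Ω) q).1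
      (inferInstance : IsPurelyInseparable (separableClosure K Ω) Ω) x
    refine ⟨x ^ q ^ n, ?_, ?_⟩
    · rw [← hs]; exact s.2
    · rw [map_pow σ, map_pow, map_pow]
      intro h
      apply hne
      have hq0 : 0 < q := expChar_pos K q
      exact (pow_left_inj₀ zero_le zero_le (pow_pos hq0 n).ne').1 h
  have hyL : IsSeparable L y := IsSeparable.tower_top L (mem_separableClosure_iff.1 hy)
  -- the splitting field
  let P := minpoly L y
  have hPs : P.Separable := hyL
  let N : IntermediateField L Ω := IntermediateField.adjoin L (P.rootSet Ω)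
  have hsplit : P.IsSplittingField L N :=
    IntermediateField.adjoin_rootSet_isSplittingField (IsAlgClosed.splits _)
  have hfin : FiniteDimensional L N := IsSplittingField.finiteDimensional N P
  have hgal : IsGalois L N := IsGalois.of_separable_splitting_field hPs
  let w : Valuation N Γ := v.comap (algebraMap N Ω)
  have hyN : y ∈ N := by
    apply IntermediateField.subset_adjoin
    rw [mem_rootSet]
    exact ⟨minpoly.ne_zero (Algebra.IsIntegral.isIntegral y), minpoly.aeval L y⟩
  let τ : N ≃ₐ[L] N := σ.restrictNormal N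
  have hτ : τ ∉ dec L w := by
    intro h
    apply hvy
    have h1 := h ⟨y, hyN⟩
    have h2 : algebraMap N Ω (τ ⟨y, hyN⟩) = σ y := σ.restrictNormal_commutes N ⟨y, hyN⟩
    have h3 : v (algebraMap N Ω (τ ⟨y, hyN⟩)) = v (algebraMap N Ω ⟨y, hyN⟩) := h1
    rwa [h2] at h3
  obtain ⟨z, hz1, hz2⟩ : ∃ z : N, z ∈ IntermediateField.fixedField (dec L w) ∧
      z ∉ Set.range (algebraMap L N) := by
    by_contra hcon
    push Not at hcon
    apply hτ
    rw [← IntermediateField.fixingSubgroup_fixedField (dec L w)]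
    intro z
    obtain ⟨l, hl⟩ := hcon z z.2
    have h1 : τ (algebraMap L N l) = algebraMap L N l := τ.commutes l
    rw [hl] at h1
    exact h1
  have hzL : (z : Ω) ∉ L := by
    intro h
    apply hz2
    exact ⟨⟨z, h⟩, Subtype.ext rfl⟩
  have hzs : (z : Ω) ∈ separableClosure K Ω := by
    rw [mem_separableClosure_iff]
    have h1 : IsSeparable L z := Algebra.IsSeparable.isSeparable L z
    have h2 : IsSeparable L (z : Ω) := by
      have := (isSeparable_map_iff N.val (x := z) N.val.injective).2 h1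
      exact this
    exact IsSeparable.of_algebra_isSeparable_of_isSeparable K h2
  obtain ⟨b, hb, hab⟩ := hmax z hzs hzL
  have hbN : b ∈ IntermediateField.lift (IntermediateField.fixedField (dec L w)) := by
    have h1 : IntermediateField.adjoin L {(z : Ω)} ≤
        IntermediateField.lift (IntermediateField.fixedField (dec L w)) := by
      rw [IntermediateField.adjoin_le_iff, Set.singleton_subset_iff]
      exact (IntermediateField.mem_lift z).2 hz1
    exact h1 hb
  have hbN' : b ∈ N := IntermediateField.lift_le _ hbN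
  have hbF : (⟨b, hbN'⟩ : N) ∈ IntermediateField.fixedField (dec L w) :=
    (IntermediateField.mem_lift (⟨b, hbN'⟩ : N)).1 hbN
  have hve1 : v e ≤ 1 := hB.he1.le
  obtain ⟨b', hb'⟩ := descent w hp (a := (⟨a, hB.ha⟩ : L)) (e := (⟨e, hB.he⟩ : L))
    (b := ⟨b, hbN'⟩) (fun h => hB.he0 (congrArg Subtype.val h)) hB.ha1 hve1 (by
      have h1 : w (p : N) = v (p : Ω) := by
        change v (algebraMap N Ω (p : N)) = _
        rw [map_natCast]
      rw [h1]; exact hB.hp) (fun g hg => hbF ⟨g, hg⟩) hab
  exact absurd (hB.bad b' b'.2) (not_lt.2 hb')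

/-- `bad_coprime` of the library, with invariance over `L` only -/
theorem bad_coprime' {p : ℕ} (hp : p.Prime)
    {a e : Ω} {L : IntermediateField K Ω} (hv : ∀ (σ : Ω ≃ₐ[L] Ω) (x : Ω), v (σ x) = v x)
    (hB : Bad v p a e L) {z : Ω}
    (hz : Nat.Coprime (minpoly L z).natDegree p) : v e ^ p < v (a - z ^ p) := by
  by_contra hcon
  push Not at hcon
  have hint : IsIntegral L z := Algebra.IsIntegral.isIntegral z
  have hve1 : v e ^ p ≤ 1 := pow_le_one' hB.he1.le p
  have hvp : v (p : Ω) < 1 := by
    refine lt_of_le_of_lt hB.hp ?_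
    exact pow_lt_one' hB.he1 hp.ne_zero
  set R := (minpoly L z).aroots Ω with hR
  set m := (minpoly L z).natDegree with hm
  have hm0 : 0 < m := minpoly.natDegree_pos hint
  have hvm : v (m : Ω) = 1 := v_coprime v hvp hz
  have hcard : R.card = m := by
    rw [hR, hm, aroots_def, ← natDegree_map (algebraMap L Ω)]
    exact ((IsAlgClosed.splits ((minpoly L z).map (algebraMap L Ω))).natDegree_eq_card_roots).symm
  have hR1 : ∀ z' ∈ R, v (a - z' ^ p) ≤ v e ^ p := by
    intro z' hz'
    obtain ⟨σ, hσ⟩ := exists_conj L hz'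
    have h1 := hv σ (a - z ^ p)
    rw [map_sub, map_pow, hσ] at h1
    have h2 : σ a = a := σ.commutes ⟨a, hB.ha⟩
    rw [h2] at h1
    rw [h1]; exact hcon
  have hR2 : ∀ z' ∈ R, v z' ≤ 1 := by
    intro z' hz'
    have h1 : v (z' ^ p) ≤ 1 := by
      have e1 : z' ^ p = a - (a - z' ^ p) := by ring
      rw [e1]
      exact v.map_sub_le hB.ha1 ((hR1 z' hz').trans hve1)
    rw [map_pow] at h1
    exact (pow_le_one_iff hp.ne_zero).1 h1
  have hsL : R.sum ∈ L := by
    have h1 := (IsAlgClosed.splits ((minpoly L z).map (algebraMap L Ω))).nextCoeff_eq_neg_sum_roots_of_monic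
      ((minpoly.monic hint).map _)
    rw [nextCoeff_map_eq] at h1
    have h2 : R.sum = - algebraMap L Ω (minpoly L z).nextCoeff := by
      rw [h1, neg_neg, hR, aroots_def]
    rw [h2]
    exact neg_mem (minpoly L z).nextCoeff.2
  have hs1 : v R.sum ≤ 1 := ms_sum_le v R 1 hR2
  have k1 : v (R.sum ^ p - (R.map (· ^ p)).sum) ≤ v e ^ p := by
    refine (fr_multiset v hp R 1 hR2).trans ?_
    rw [one_pow, mul_one]; exact hB.hp
  have k2 : v ((R.map (· ^ p)).sum - (m : Ω) * a) ≤ v e ^ p := by
    have := ms_sum_pow v p R a (v e ^ p) hR1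
    rwa [hcard] at this
  have k3 : v (R.sum ^ p - (m : Ω) * a) ≤ v e ^ p := by
    have e1 : R.sum ^ p - (m : Ω) * a = (R.sum ^ p - (R.map (· ^ p)).sum) +
        ((R.map (· ^ p)).sum - (m : Ω) * a) := by ring
    rw [e1]; exact v.map_add_le k1 k2
  have hm0' : (m : Ω) ≠ 0 := by
    intro h0
    rw [h0, map_zero] at hvm
    exact zero_ne_one hvm
  set b := R.sum / m with hb
  have hbL : b ∈ L := L.div_mem hsL (natCast_mem L m)
  have hb1 : v b ≤ 1 := by
    rw [hb, map_div₀, hvm, div_one]; exact hs1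
  have e2 : R.sum = m * b := by rw [hb]; field_simp
  have k4 : v ((m : Ω) * (b ^ p - a)) ≤ v e ^ p := by
    have e3 : (m : Ω) * (b ^ p - a) = (R.sum ^ p - (m : Ω) * a) - ((m : Ω) ^ p - m) * b ^ p := by
      rw [e2]; ring
    rw [e3]
    apply v.map_sub_le k3
    rw [map_mul, map_pow]
    refine le_trans (mul_le_of_le_one_right zero_le (pow_le_one' hb1 p)) ?_
    exact (fermat_val v hp m).trans hB.hp
  rw [map_mul, hvm, one_mul, v.map_sub_swap] at k4
  exact absurd (hB.bad b hbL) (not_lt.2 k4)

omit [LinearOrderedCommGroupWithZero Γ] [IsAlgClosed Ω] in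
/-- elements of degree prime to `p` are separable -/
theorem separable_of_coprime {p : ℕ} (hp : p.Prime) (hchar : CharZero K ∨ CharP K p)
    {L : IntermediateField K Ω} {z : Ω} (hz : Nat.Coprime (minpoly L z).natDegree p) :
    IsSeparable L z := by
  have hint : IsIntegral L z := Algebra.IsIntegral.isIntegral z
  rcases hchar with h | h
  · have : CharZero L := charZero_of_injective_algebraMap (algebraMap K L).injective
    exact (minpoly.irreducible hint).separable
  · have : CharP L p := charP_of_injective_algebraMap (algebraMap K L).injective p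
    rcases separable_or p (minpoly.irreducible hint) with h1 | ⟨-, g, -, hg⟩
    · exact h1
    · exfalso
      rw [← hg, natDegree_expand] at hz
      have : Nat.Coprime p p := Nat.Coprime.coprime_dvd_left (dvd_mul_left _ _) hz
      rw [Nat.coprime_self] at this
      exact hp.one_lt.ne' this

omit [LinearOrderedCommGroupWithZero Γ] [IsAlgClosed Ω] [Algebra.IsAlgebraic K Ω] in
theorem ext1_le_sep {L : IntermediateField K Ω} (hLs : L ≤ separableClosure K Ω) {z : Ω}
    (hz : z ∈ separableClosure K Ω) : ext1 L z ≤ separableClosure K Ω := by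
  unfold ext1
  rw [IntermediateField.restrictScalars_adjoin_eq_sup]
  apply sup_le hLs
  rw [IntermediateField.adjoin_le_iff, Set.singleton_subset_iff]
  exact hz

omit [Algebra.IsAlgebraic K Ω] in
/-- no best approximation of `a` by `p`-th powers -/
theorem noBest_of_maximal {p : ℕ} (hp : p.Prime) {a e : Ω} {L : IntermediateField K Ω}
    (hB : Bad v p a e L) (hSmall : Small p L)
    (hmax : ∀ θ : Ω, ∀ c : L, θ ^ p - c = e ^ (p - 1) * θ → Bad v p a e (ext1 L θ) → θ ∈ L) :
    ∀ b ∈ L, ∃ b' ∈ L, v (a - b' ^ p) < v (a - b ^ p) := by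
  by_contra hcon
  push Not at hcon
  obtain ⟨b0, hb0, hmax0⟩ := hcon
  have hvp : v (p : Ω) < 1 := lt_of_le_of_lt hB.hp (pow_lt_one' hB.he1 hp.ne_zero)
  have hve : 0 < v e := (v.pos_iff).2 hB.he0
  set c := a - b0 ^ p with hc
  have hcL : c ∈ L := L.sub_mem hB.ha (pow_mem hb0 p)
  have hcbig : v e ^ p < v c := hB.bad b0 hb0
  have hvc : 0 < v c := lt_of_le_of_lt zero_le hcbig
  have hc0 : c ≠ 0 := (v.pos_iff).1 hvc
  have hc1 : v c ≤ 1 := by
    have := hmax0 0 L.zero_mem
    rw [zero_pow hp.ne_zero, sub_zero] at this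
    exact this.trans hB.ha1
  have hpc : v (p : Ω) < v c := lt_of_le_of_lt hB.hp hcbig
  have hb01 : v b0 ≤ 1 := by
    have h1 : v (b0 ^ p) ≤ 1 := by
      have e1 : b0 ^ p = a - c := by rw [hc]; ring
      rw [e1]; exact v.map_sub_le hB.ha1 hc1
    rw [map_pow] at h1
    exact (pow_le_one_iff hp.ne_zero).1 h1
  have hJ : ∀ b ∈ L, v c ≤ v (c - b ^ p) := by
    intro b hb
    by_contra hlt
    push Not at hlt
    have hb1 : v b ≤ 1 := by
      have h1 : v (b ^ p) ≤ 1 := by
        have e1 : b ^ p = c - (c - b ^ p) := by ring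
        rw [e1]; exact v.map_sub_le hc1 (hlt.le.trans hc1)
      rw [map_pow] at h1
      exact (pow_le_one_iff hp.ne_zero).1 h1
    have h2 := fr v hp b0 b 1 hb01 hb1
    rw [one_pow, mul_one] at h2
    have h3 : v (a - (b0 + b) ^ p) < v c := by
      have e1 : a - (b0 + b) ^ p = (c - b ^ p) - ((b0 + b) ^ p - b0 ^ p - b ^ p) := by
        rw [hc]; ring
      rw [e1]
      exact v.map_sub_lt hlt (lt_of_le_of_lt h2 hpc)
    exact absurd (hmax0 (b0 + b) (L.add_mem hb0 hb)) (not_le.2 h3)
  -- the polynomial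
  set e' : L := ⟨e, hB.he⟩ with he'
  set c' : L := ⟨c, hcL⟩ with hc'
  let F : L[X] := X ^ p + (-(C (e' ^ (p - 1)) * X) - C c')
  have hdegq : (-(C (e' ^ (p - 1)) * X) - C c' : L[X]).degree < p := by
    have h1 : (-(C (e' ^ (p - 1)) * X) - C c' : L[X]).degree ≤ 1 := by
      refine (degree_sub_le _ _).trans (max_le ?_ (degree_C_le.trans (by norm_num)))
      rw [degree_neg]
      exact degree_C_mul_X_le _
    refine lt_of_le_of_lt h1 ?_
    exact_mod_cast hp.one_lt
  have hF : F.Monic := monic_X_pow_add hdegq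
  have hFd : F.natDegree = p := by
    have : F.degree = p := by
      rw [show F = X ^ p + (-(C (e' ^ (p - 1)) * X) - C c') from rfl,
        degree_add_eq_left_of_degree_lt]
      · exact degree_X_pow p
      · rw [degree_X_pow]; exact hdegq
    exact natDegree_eq_of_degree_eq_some this
  obtain ⟨θ, hθr⟩ := IsAlgClosed.exists_aeval_eq_zero Ω F (by
    rw [degree_eq_natDegree hF.ne_zero, hFd]
    exact_mod_cast hp.ne_zero)
  have hθ : θ ^ p - c = e ^ (p - 1) * θ := by
    have h1 : aeval θ F = θ ^ p + (-(e ^ (p - 1) * θ) - c) := by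
      simp only [F, map_add, map_sub, map_neg, map_mul, map_pow, aeval_X, aeval_C]
      rfl
    rw [h1] at hθr
    linear_combination hθr
  have hθlt : v (θ ^ p - c) < v c := by
    by_contra hge
    push Not at hge
    rw [hθ, map_mul, map_pow] at hge
    have h1 : v θ ^ p ≤ v e ^ (p - 1) * v θ := by
      rw [← map_pow]
      have e1 : θ ^ p = e ^ (p - 1) * θ + c := by linear_combination hθ
      rw [e1]
      apply v.map_add_le _ hge
      rw [map_mul, map_pow]
    have hθ0 : 0 < v θ := by
      by_contra h0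
      have : v θ = 0 := le_antisymm (not_lt.1 h0) zero_le
      rw [this, mul_zero] at hge
      exact absurd hvc (not_lt.2 hge)
    have h2 : v θ ^ (p - 1) ≤ v e ^ (p - 1) := by
      have e2 : v θ ^ p = v θ ^ (p - 1) * v θ := by
        rw [← pow_succ]; congr 1; have := hp.pos; omega
      rw [e2] at h1
      exact le_of_mul_le_mul_right h1 hθ0
    have h3 : v θ ≤ v e := by
      have hp1 : p - 1 ≠ 0 := by have := hp.one_lt; omega
      exact (pow_le_pow_iff_left₀ zero_le zero_le hp1).1 h2
    have h4 : v c ≤ v e ^ p := by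
      calc v c ≤ v e ^ (p - 1) * v θ := hge
        _ ≤ v e ^ (p - 1) * v e := mul_le_mul_right h3 _
        _ = v e ^ p := by rw [← pow_succ]; congr 1; have := hp.pos; omega
    exact absurd hcbig (not_lt.2 h4)
  have hθc : v θ ^ p = v c := by
    have := v.map_eq_of_sub_lt hθlt
    rwa [map_pow] at this
  have heθ : v e < v θ := by
    rw [← hθc] at hcbig
    exact (pow_lt_pow_iff' hp.ne_zero).1 hcbig
  have hθ1 : v θ ≤ 1 := by
    rw [← hθc] at hc1
    exact (pow_le_one_iff hp.ne_zero).1 hc1
  set d : Ω := -e ^ (p - 1) with hd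
  have hdL : d ∈ L := neg_mem (pow_mem hB.he _)
  have hd0 : d ≠ 0 := neg_ne_zero.2 (pow_ne_zero _ hB.he0)
  have hdθ : v e ^ p < v (d * θ) := by
    rw [hd, neg_mul, Valuation.map_neg, map_mul, map_pow]
    calc v e ^ p = v e ^ (p - 1) * v e := by rw [← pow_succ]; congr 1; have := hp.pos; omega
      _ < v e ^ (p - 1) * v θ := mul_lt_mul_of_pos_left heθ (pow_pos hve _)
  have hBM : Bad v p a e (ext1 L θ) := by
    refine ⟨le_ext1 L θ hB.ha, hB.ha1, le_ext1 L θ hB.he, hB.he0, hB.he1, hB.hp, ?_⟩
    intro b hb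
    by_contra hlt
    push Not at hlt
    have hve1 : v e ^ p ≤ 1 := pow_le_one' hB.he1.le p
    have hb1 : v b ≤ 1 := by
      have h1 : v (b ^ p) ≤ 1 := by
        have e1 : b ^ p = a - (a - b ^ p) := by ring
        rw [e1]; exact v.map_sub_le hB.ha1 (hlt.trans hve1)
      rw [map_pow] at h1
      exact (pow_le_one_iff hp.ne_zero).1 h1
    have hβ1 : v (b0 + θ) ≤ 1 := v.map_add_le hb01 hθ1
    have hb'1 : v (b - (b0 + θ)) ≤ 1 := v.map_sub_le hb1 hβ1
    have hb'M : b - (b0 + θ) ∈ ext1 L θ :=
      sub_mem hb (add_mem (le_ext1 L θ hb0) (self_mem_ext1 L θ))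
    have hJ' := lemma_J v hp hvp hSmall hcL hc0 hJ hθlt hF hFd hθr hdL hd0 hb'M
    have f1 := fr v hp b0 θ 1 hb01 hθ1
    have f2 := fr v hp (b0 + θ) (b - (b0 + θ)) 1 hβ1 hb'1
    rw [one_pow, mul_one] at f1 f2
    rw [add_sub_cancel] at f2
    have f3 : v (d * θ - (b - (b0 + θ)) ^ p) ≤ v e ^ p := by
      have e1 : d * θ - (b - (b0 + θ)) ^ p = (a - b ^ p) +
          (b ^ p - (b0 + θ) ^ p - (b - (b0 + θ)) ^ p) + ((b0 + θ) ^ p - b0 ^ p - θ ^ p) := by
        have : d * θ = c - θ ^ p := by rw [hd]; linear_combination hθ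
        rw [this, hc]; ring
      rw [e1]
      exact v.map_add_le (v.map_add_le hlt (f2.trans hB.hp)) (f1.trans hB.hp)
    exact absurd (lt_of_lt_of_le hdθ hJ') (not_lt.2 f3)
  have hθL : θ ∈ L := hmax θ c' hθ hBM
  have := hJ θ hθL
  rw [v.map_sub_swap c] at this
  exact absurd hθlt (not_lt.2 this)

omit [LinearOrderedCommGroupWithZero Γ] [IsAlgClosed Ω] in
/-- the elements `θ` are separable -/
theorem theta_separable {p : ℕ} (hchar : CharZero K ∨ CharP K p)
    {L : IntermediateField K Ω} {e : Ω} (he : e ∈ L) (he0 : e ≠ 0) {θ : Ω} {c : L}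
    (hθ : θ ^ p - c = e ^ (p - 1) * θ) : IsSeparable L θ := by
  have hint : IsIntegral L θ := Algebra.IsIntegral.isIntegral θ
  rcases hchar with h | h
  · have : CharZero L := charZero_of_injective_algebraMap (algebraMap K L).injective
    exact (minpoly.irreducible hint).separable
  · have hcL : CharP L p := charP_of_injective_algebraMap (algebraMap K L).injective p
    set e' : L := ⟨e, he⟩ with he'
    let F : L[X] := X ^ p + (-(C (e' ^ (p - 1)) * X) - C c)
    have h1 : aeval θ F = 0 := by
      have h2 : aeval θ F = θ ^ p + (-(e ^ (p - 1) * θ) - c) := by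
        simp only [F, map_add, map_sub, map_neg, map_mul, map_pow, aeval_X, aeval_C]
        rfl
      rw [h2]; linear_combination hθ
    have hFs : F.Separable := by
      have hder : derivative F = - C (e' ^ (p - 1)) := by
        simp only [F, derivative_add, derivative_sub, derivative_neg, derivative_X_pow,
          derivative_C, derivative_C_mul, derivative_X, CharP.cast_eq_zero, C_0, zero_mul, zero_add,
          mul_one, sub_zero]
      have he0' : e' ^ (p - 1) ≠ 0 := by
        apply pow_ne_zero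
        intro h0
        exact he0 (congrArg Subtype.val h0)
      rw [separable_def, hder]
      refine IsCoprime.neg_right ?_
      refine ⟨0, C ((e' ^ (p - 1))⁻¹), ?_⟩
      rw [zero_mul, zero_add, ← C_mul, inv_mul_cancel₀ he0', C_1]
    exact hFs.of_dvd (minpoly.dvd L θ h1)

/-- the main construction -/
theorem exists_sep_bad {p : ℕ} (hp : p.Prime) (hchar : CharZero K ∨ CharP K p)
    {a e : Ω} {L0 : IntermediateField K Ω} (hB0 : Bad v p a e L0)
    (hL0 : L0 ≤ separableClosure K Ω) :
    ∃ L : IntermediateField K Ω, Bad v p a e L ∧ L ≤ separableClosure K Ω ∧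
      (∀ (σ : Ω ≃ₐ[L] Ω) (x : Ω), v (σ x) = v x) ∧ Small p L ∧
      (∀ z : Ω, Nat.Coprime (minpoly L z).natDegree p → z ∈ L) ∧
      ∀ b ∈ L, ∃ b' ∈ L, v (a - b' ^ p) < v (a - b ^ p) := by
  have hZ := zorn_le_nonempty₀ {L : IntermediateField K Ω | Bad v p a e L ∧
      L ≤ separableClosure K Ω} (by
    intro c hc hchain y hy
    have : Nonempty c := ⟨⟨y, hy⟩⟩
    have hdir : Directed (· ≤ ·) (fun L : c => (L : IntermediateField K Ω)) := hchain.directed
    have hmem : ∀ x, x ∈ (⨆ L : c, (L : IntermediateField K Ω)) ↔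
        ∃ L : c, x ∈ (L : IntermediateField K Ω) := by
      intro x
      rw [← SetLike.mem_coe, IntermediateField.coe_iSup_of_directed hdir, Set.mem_iUnion]
      rfl
    have hyB : Bad v p a e y := (hc hy).1
    refine ⟨⨆ L : c, (L : IntermediateField K Ω), ⟨?_, ?_⟩, fun z hz => le_iSup
      (fun L : c => (L : IntermediateField K Ω)) ⟨z, hz⟩⟩
    · refine ⟨(hmem a).2 ⟨⟨y, hy⟩, hyB.ha⟩, hyB.ha1, (hmem e).2 ⟨⟨y, hy⟩, hyB.he⟩, hyB.he0, hyB.he1,
        hyB.hp, ?_⟩
      intro b hb
      obtain ⟨L, hL⟩ := (hmem b).1 hb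
      exact (hc L.2).1.bad b hL
    · exact iSup_le (fun L => (hc L.2).2)) L0 ⟨hB0, hL0⟩
  obtain ⟨L, -, hLmax⟩ := hZ
  have hB : Bad v p a e L := hLmax.prop.1
  have hLs : L ≤ separableClosure K Ω := hLmax.prop.2
  have hLsep : Algebra.IsSeparable K L := (le_separableClosure_iff K Ω L).1 hLs
  -- maximality for separable elements
  have hM : ∀ z : Ω, IsSeparable L z → Bad v p a e (ext1 L z) → z ∈ L := by
    intro z hz hBM
    have hz' : z ∈ separableClosure K Ω := by
      rw [mem_separableClosure_iff]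
      exact IsSeparable.of_algebra_isSeparable_of_isSeparable K hz
    exact hLmax.le_of_ge ⟨hBM, ext1_le_sep hLs hz'⟩ (le_ext1 L z) (self_mem_ext1 L z)
  have hinv : ∀ (σ : Ω ≃ₐ[L] Ω) (x : Ω), v (σ x) = v x := by
    apply invariant_of_maximal v hp hB hLs
    intro z hz hzL
    by_contra hcon
    push Not at hcon
    apply hzL
    exact hM z (IsSeparable.tower_top L (mem_separableClosure_iff.1 hz))
      ⟨le_ext1 L z hB.ha, hB.ha1, le_ext1 L z hB.he, hB.he0, hB.he1, hB.hp, hcon⟩
  have hSpec : ∀ z : Ω, Nat.Coprime (minpoly L z).natDegree p → z ∈ L := by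
    intro z hz
    apply hM z (separable_of_coprime hp hchar hz)
    refine ⟨le_ext1 L z hB.ha, hB.ha1, le_ext1 L z hB.he, hB.he0, hB.he1, hB.hp, ?_⟩
    intro b hb
    exact bad_coprime' v hp hinv hB (Nat.Coprime.coprime_dvd_left (degree_dvd L z b hb) hz)
  have hSmall : Small p L := by
    intro z hint hz
    apply hSpec z
    have h0 : 0 < (minpoly L z).natDegree := minpoly.natDegree_pos hint
    exact Nat.Coprime.symm ((Nat.Prime.coprime_iff_not_dvd hp).2
      (fun h => absurd (Nat.le_of_dvd h0 h) (by omega)))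
  refine ⟨L, hB, hLs, hinv, hSmall, hSpec, ?_⟩
  apply noBest_of_maximal v hp hB hSmall
  intro θ c hθ hBM
  exact hM θ (theta_separable hchar hB.he hB.he0 hθ) hBM

end Pool.Agent.H16R
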