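import Mathlib
import Pool.Graph.R_seed8.Y739.RDR.Special
import Pool.Agent.H16R.Zorn

/-!
# Extensions of valuations, and the henselian property
-/

set_option autoImplicit false

universe u

namespace Pool.Agent.H16R

open Polynomial Pool.Agent.Helper975.RDR Pool.Agent.Y739.RDR

/-- every valuation ring extends -/
theorem exists_extension {K Ω : Type*} [Field K] [Field Ω] [Algebra K Ω]
    (A : ValuationSubring K) : ∃ B : ValuationSubring Ω, B.comap (algebraMap K Ω) = A := by
  obtain ⟨B, h, hloc⟩ := IsLocalRing.exists_factor_valuationRing (K := Ω)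
    ((algebraMap K Ω).comp A.subtype)
  refine ⟨B, ?_⟩
  ext x
  rw [ValuationSubring.mem_comap]
  constructor
  · intro hx
    by_contra hxA
    have hx1 : x⁻¹ ∈ A := (A.mem_or_inv_mem x).resolve_left hxA
    have hx0 : x ≠ 0 := by
      rintro rfl
      exact hxA (zero_mem A)
    have hu : IsUnit ((((algebraMap K Ω).comp A.subtype).codRestrict B.toSubring h)
        ⟨x⁻¹, hx1⟩) := by
      rw [isUnit_iff_exists_inv]
      refine ⟨⟨algebraMap K Ω x, hx⟩, ?_⟩
      apply Subtype.ext
      change algebraMap K Ω x⁻¹ * algebraMap K Ω x = 1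
      rw [← map_mul, inv_mul_cancel₀ hx0, map_one]
    have hu' := hloc.map_nonunit _ hu
    rw [isUnit_iff_exists_inv] at hu'
    obtain ⟨y, hy⟩ := hu'
    have hy' : x⁻¹ * (y : K) = 1 := congrArg Subtype.val hy
    apply hxA
    have : x = y := by
      have h2 := congrArg (x * ·) hy'
      simp only [mul_one] at h2
      rw [← mul_assoc, mul_inv_cancel₀ hx0, one_mul] at h2
      exact h2.symm
    rw [this]; exact y.2
  · intro hx
    exact h ⟨x, hx⟩

/-- the leading term cannot dominate -/
theorem root_bound {L M Γ : Type*} [Field L] [Field M] [Algebra L M]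
    [LinearOrderedCommGroupWithZero Γ] (w : Valuation M Γ) {P : L[X]} (hP : P.Monic) {x : M}
    (hx : aeval x P = 0) (h : ∀ i < P.natDegree, w (algebraMap L M (P.coeff i)) * w x ^ i <
      w x ^ P.natDegree) : False := by
  rw [aeval_eq_sum_range, Finset.sum_range_succ, hP.coeff_natDegree, one_smul] at hx
  have hpos : w x ^ P.natDegree ≠ 0 := by
    rcases Nat.eq_zero_or_pos P.natDegree with h0 | h0
    · rw [h0, pow_zero]; exact one_ne_zero
    · exact (lt_of_le_of_lt zero_le (h 0 h0)).ne'
  have h1 : w (∑ i ∈ Finset.range P.natDegree, P.coeff i • x ^ i) < w x ^ P.natDegree := by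
    apply w.map_sum_lt hpos
    intro i hi
    rw [Algebra.smul_def, map_mul, map_pow]
    exact h i (Finset.mem_range.1 hi)
  have h2 : x ^ P.natDegree = - ∑ i ∈ Finset.range P.natDegree, P.coeff i • x ^ i := by
    linear_combination hx
  rw [← Valuation.map_neg, ← h2, map_pow] at h1
  exact lt_irrefl _ h1

section

variable {K Ω Γ : Type*} [Field K] [Field Ω] [Algebra K Ω] [IsAlgClosed Ω]
  [Algebra.IsAlgebraic K Ω] [LinearOrderedCommGroupWithZero Γ] (v : Valuation Ω Γ)

/-- the coefficients of the minimal polynomial -/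
theorem coeff_conj {L : IntermediateField K Ω} (hv : ∀ (σ : Ω ≃ₐ[L] Ω) (x : Ω), v (σ x) = v x)
    (z : Ω) (i : ℕ) : v ((minpoly L z).coeff i : Ω) * v z ^ i ≤ v z ^ (minpoly L z).natDegree := by
  have hint : IsIntegral L z := Algebra.IsIntegral.isIntegral z
  set R := (minpoly L z).aroots Ω with hR
  have hcard : R.card = (minpoly L z).natDegree := by
    rw [hR, aroots_def, ← natDegree_map (algebraMap L Ω)]
    exact ((IsAlgClosed.splits ((minpoly L z).map (algebraMap L Ω))).natDegree_eq_card_roots).symm
  have e1 : ((minpoly L z).coeff i : Ω) = ((R.map (fun z => X - C z)).prod).coeff i := by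
    have h1 : (minpoly L z).map (algebraMap L Ω) =
        C (((minpoly L z).map (algebraMap L Ω)).leadingCoeff) *
        ((((minpoly L z).map (algebraMap L Ω)).roots).map (X - C ·)).prod :=
      (IsAlgClosed.splits ((minpoly L z).map (algebraMap L Ω))).eq_prod_roots
    rw [((minpoly.monic hint).map _).leadingCoeff, C_1, one_mul] at h1
    have h2 : ((minpoly L z).map (algebraMap L Ω)).coeff i = ((minpoly L z).coeff i : Ω) := by
      rw [coeff_map]; rfl
    rw [← h2, h1]
  rw [e1]
  refine (coeff_bound v (v z) R i).trans ?_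
  rw [← hcard, ← Multiset.prod_replicate, ← Multiset.map_const']
  apply multiset_prod_le
  intro z' hz'
  obtain ⟨σ, hσ⟩ := exists_conj L hz'
  have h1 := hv σ z
  rw [hσ] at h1
  rw [h1, max_self]

end

/-- The henselian property. -/
theorem hensel_of_invariant {K Ω : Type u} [Field K] [Field Ω] [Algebra K Ω] [IsAlgClosed Ω]
    [Algebra.IsAlgebraic K Ω] (Ab : ValuationSubring Ω) (L : IntermediateField K Ω)
    (hv : ∀ (σ : Ω ≃ₐ[L] Ω) (x : Ω), Ab.valuation (σ x) = Ab.valuation x) :
    IsHenselianField (Ab.comap (algebraMap L Ω)) := by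
  intro M _ _ _
  let f : M →ₐ[L] Ω := IsAlgClosed.lift
  refine ⟨Ab.comap (f : M →+* Ω), ?_, ?_⟩
  · simp only
    rw [ValuationSubring.comap_comap]
    congr 1
    exact f.comp_algebraMap
  · intro C hC
    have hlt : ∀ l : L, Ab.valuation (l : Ω) < 1 → C.valuation (algebraMap L M l) < 1 := by
      intro l hl
      have h1 := (comap_val_lt Ab (algebraMap L Ω) l 1).2 (by rw [map_one, map_one]; exact hl)
      rw [← hC] at h1
      have h2 := (comap_val_lt C (algebraMap L M) l 1).1 h1
      rwa [map_one, map_one] at h2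
    have hle : ∀ l : L, Ab.valuation (l : Ω) ≤ 1 → C.valuation (algebraMap L M l) ≤ 1 := by
      intro l hl
      have h1 := (comap_val_le Ab (algebraMap L Ω) l 1).2 (by rw [map_one, map_one]; exact hl)
      rw [← hC] at h1
      have h2 := (comap_val_le C (algebraMap L M) l 1).1 h1
      rwa [map_one, map_one] at h2
    have hmin : ∀ x : M, minpoly L (f x) = minpoly L x := fun x =>
      minpoly.algHom_eq f f.injective x
    have hco : ∀ (x : M) (i : ℕ), Ab.valuation ((minpoly L x).coeff i : Ω) * Ab.valuation (f x) ^ i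
        ≤ Ab.valuation (f x) ^ (minpoly L x).natDegree := by
      intro x i
      have := coeff_conj Ab.valuation hv (f x) i
      rwa [hmin] at this
    have hint : ∀ x : M, IsIntegral L x := fun x => Algebra.IsIntegral.isIntegral x
    -- `Ab` is contained in `C`
    have key1 : ∀ x : M, Ab.valuation (f x) ≤ 1 → C.valuation x ≤ 1 := by
      intro x hx
      by_cases hx0 : x = 0
      · rw [hx0, map_zero]; exact zero_le
      have hfx : 0 < Ab.valuation (f x) := by
        rw [Valuation.pos_iff]
        exact (_root_.map_ne_zero f).2 hx0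
      by_contra hgt
      push Not at hgt
      apply root_bound C.valuation (minpoly.monic (hint x)) (minpoly.aeval L x)
      intro i hi
      have h1 : Ab.valuation ((minpoly L x).coeff i : Ω) ≤ 1 := by
        have h2 := hco x i
        have h3 : Ab.valuation (f x) ^ (minpoly L x).natDegree ≤ Ab.valuation (f x) ^ i :=
          pow_le_pow_right_of_le_one' hx hi.le
        have h4 := h2.trans h3
        rw [← one_mul (Ab.valuation (f x) ^ i), ← mul_assoc, mul_one] at h4
        exact le_of_mul_le_mul_right h4 (pow_pos hfx i)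
      calc C.valuation (algebraMap L M ((minpoly L x).coeff i)) * C.valuation x ^ i
          ≤ 1 * C.valuation x ^ i := mul_le_mul_left (hle _ h1) _
        _ = C.valuation x ^ i := one_mul _
        _ < C.valuation x ^ (minpoly L x).natDegree := pow_lt_pow_right₀ hgt hi
    have key2 : ∀ x : M, C.valuation x ≤ 1 → Ab.valuation (f x) ≤ 1 := by
      intro x hx
      by_contra hgt
      push Not at hgt
      have hx0 : x ≠ 0 := by
        rintro rfl
        rw [map_zero, map_zero] at hgt
        exact absurd hgt (not_lt.2 zero_le)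
      have hy : Ab.valuation (f x⁻¹) < 1 := by
        rw [map_inv₀, map_inv₀]
        exact inv_lt_one_of_one_lt₀ hgt
      have hy0 : 0 < Ab.valuation (f x⁻¹) := by
        rw [Valuation.pos_iff]
        exact (_root_.map_ne_zero f).2 (inv_ne_zero hx0)
      have hCy : C.valuation x⁻¹ = 1 := by
        refine le_antisymm (key1 _ hy.le) ?_
        rw [map_inv₀]
        have : 0 < C.valuation x := by
          rw [Valuation.pos_iff]; exact hx0
        exact (one_le_inv₀ this).2 hx
      apply root_bound C.valuation (minpoly.monic (hint x⁻¹)) (minpoly.aeval L x⁻¹)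
      intro i hi
      rw [hCy, one_pow, one_pow, mul_one]
      apply hlt
      have h2 := hco x⁻¹ i
      have h3 : Ab.valuation (f x⁻¹) ^ (minpoly L x⁻¹).natDegree < Ab.valuation (f x⁻¹) ^ i :=
        pow_lt_pow_right_of_lt_one₀ hy0 hy hi
      have h4 := h2.trans_lt h3
      by_contra hge
      push Not at hge
      have h5 : Ab.valuation (f x⁻¹) ^ i ≤
          Ab.valuation ((minpoly L x⁻¹).coeff i : Ω) * Ab.valuation (f x⁻¹) ^ i :=
        le_mul_of_one_le_left' hge
      exact absurd h4 (not_lt.2 h5)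
    ext x
    rw [← ValuationSubring.valuation_le_one_iff, ValuationSubring.mem_comap,
      ← ValuationSubring.valuation_le_one_iff]
    exact ⟨key2 x, key1 x⟩

section

variable {K Ω Γ : Type*} [Field K] [Field Ω] [Algebra K Ω] [IsAlgClosed Ω]
  [Algebra.IsAlgebraic K Ω] [LinearOrderedCommGroupWithZero Γ] (v : Valuation Ω Γ)

omit [Algebra.IsAlgebraic K Ω] in
/-- start of the construction when `v p` is not divisible by `p` in the value group, without
invariance -/
theorem start_two' {p : ℕ} (hp : p.Prime)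
    (hvp : v (p : Ω) < 1) (hp0 : (p : Ω) ≠ 0)
    (h : ∀ b : K, v (algebraMap K Ω b) ^ p ≠ v (p : Ω)) :
    ∃ (a e : Ω) (L : IntermediateField K Ω), Bad v p a e L := by
  obtain ⟨w, hw⟩ := IsAlgClosed.exists_pow_nat_eq (p : Ω) hp.pos
  have hwp : v w ^ p = v (p : Ω) := by rw [← map_pow, hw]
  have hw0 : w ≠ 0 := by
    rintro rfl
    rw [zero_pow hp.ne_zero] at hw
    exact hp0 hw.symm
  have hvw : 0 < v w := (v.pos_iff).2 hw0
  have hvw0 : v w ≠ 0 := hvw.ne'
  have hw1 : v w < 1 := by
    have h1 : v w ^ p < 1 ^ p := by rw [hwp, one_pow]; exact hvp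
    exact (pow_lt_pow_iff' hp.ne_zero).1 h1
  -- values of elements of `⊥`
  have hbot : ∀ c ∈ (⊥ : IntermediateField K Ω), ∃ k : K, algebraMap K Ω k = c := by
    intro c hc
    exact IntermediateField.mem_bot.1 hc
  -- the values of `K` do not meet `v w ^ m`
  have hKw : ∀ (k : K) (m : ℕ), 0 < m → m < p → v (algebraMap K Ω k) ≠ v w ^ m := by
    intro k m hm0 hmp hk
    have hcop : IsCoprime (m : ℤ) (p : ℤ) := by
      apply Nat.isCoprime_iff_coprime.2
      exact Nat.Coprime.symm ((Nat.Prime.coprime_iff_not_dvd hp).2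
        (fun hd => absurd (Nat.le_of_dvd hm0 hd) (by omega)))
    obtain ⟨s, t, hst⟩ := hcop
    apply h (k ^ s * (p : K) ^ t)
    have e : (v w ^ m) ^ s * (v w ^ p) ^ t = v w := by
      rw [← zpow_natCast, ← zpow_natCast, ← zpow_mul, ← zpow_mul, ← zpow_add₀ hvw0]
      have : (m : ℤ) * s + (p : ℤ) * t = 1 := by linarith
      rw [this, zpow_one]
    rw [map_mul, map_mul, map_zpow₀, map_zpow₀, map_zpow₀, map_zpow₀, map_natCast, hk, ← hwp, e]
  have hne2 : ∀ (c d : Ω), c ∈ (⊥ : IntermediateField K Ω) → d ∈ (⊥ : IntermediateField K Ω) →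
      c ≠ 0 → d ≠ 0 → ∀ i j : ℕ, i < j → j < p → v (c * w ^ i) ≠ v (d * w ^ j) := by
    intro c d hc hd hc0 hd0 i j hij hjp heq
    obtain ⟨k, hk⟩ := hbot (c / d) (div_mem hc hd)
    apply hKw k (j - i) (by omega) (by omega)
    have hd1 : v d ≠ 0 := (v.ne_zero_iff).2 hd0
    have hi : v w ^ i ≠ 0 := pow_ne_zero _ hvw0
    rw [hk, map_div₀]
    rw [map_mul, map_mul, map_pow, map_pow] at heq
    have e1 : v w ^ j = v w ^ (j - i) * v w ^ i := by rw [← pow_add]; congr 1; omega
    rw [e1, ← mul_assoc] at heq
    have h2 : v c = v d * v w ^ (j - i) := mul_right_cancel₀ hi heq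
    rw [h2, mul_comm, mul_div_cancel_right₀ _ hd1]
  have hval : ∀ b ∈ ext1 (⊥ : IntermediateField K Ω) w, b ≠ 0 →
      ∃ (k : K) (i : ℕ), v b = v (algebraMap K Ω k) * v w ^ i := by
    intro b hb hb0
    have hF : (X ^ p - C (p : (⊥ : IntermediateField K Ω))).Monic := monic_X_pow_sub_C _ hp.ne_zero
    have hFd : (X ^ p - C (p : (⊥ : IntermediateField K Ω))).natDegree = p :=
      natDegree_X_pow_sub_C
    have hroot : aeval w (X ^ p - C (p : (⊥ : IntermediateField K Ω))) = 0 := by
      rw [map_sub, map_pow, aeval_X, aeval_C, hw, map_natCast, sub_self]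
    obtain ⟨g, hgd, hg⟩ := exists_poly hp.pos hF hFd hroot ((mem_ext1 _ _ _).1 hb)
    have hbs : b = ∑ i ∈ Finset.range p, (g.coeff i : Ω) * w ^ i := by
      rw [← hg, aeval_eq_sum_range' hgd]
      apply Finset.sum_congr rfl
      intro i _
      rw [Algebra.smul_def]; rfl
    have hind : ∀ n ≤ p, (∑ i ∈ Finset.range n, (g.coeff i : Ω) * w ^ i = 0) ∨
        ∃ i < n, (g.coeff i : Ω) ≠ 0 ∧
          v (∑ i ∈ Finset.range n, (g.coeff i : Ω) * w ^ i) = v ((g.coeff i : Ω) * w ^ i) := by
      intro n
      induction n with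
      | zero => intro _; left; simp
      | succ n ih =>
        intro hn
        rw [Finset.sum_range_succ]
        by_cases hc : (g.coeff n : Ω) = 0
        · rw [hc, zero_mul, add_zero]
          rcases ih (by omega) with h1 | ⟨i, hi, h1, h2⟩
          · left; exact h1
          · right; exact ⟨i, by omega, h1, h2⟩
        · right
          rcases ih (by omega) with h1 | ⟨i, hi, h1, h2⟩
          · rw [h1, zero_add]; exact ⟨n, by omega, hc, rfl⟩
          · have h3 := hne2 _ _ (g.coeff i).2 (g.coeff n).2 h1 hc i n hi (by omega)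
            rw [← h2] at h3
            rcases lt_or_gt_of_ne h3 with h4 | h4
            · refine ⟨n, by omega, hc, ?_⟩
              rw [add_comm]
              exact v.map_add_eq_of_lt_left h4
            · refine ⟨i, by omega, h1, ?_⟩
              rw [← h2]
              exact v.map_add_eq_of_lt_left h4
    rcases hind p le_rfl with h1 | ⟨i, hi, h1, h2⟩
    · rw [← hbs] at h1
      exact absurd h1 hb0
    · obtain ⟨k, hk⟩ := hbot _ (g.coeff i).2
      refine ⟨k, i, ?_⟩
      rw [← hbs] at h2
      rw [h2, map_mul, map_pow, hk]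
  refine ⟨w, w, ext1 ⊥ w, ⟨self_mem_ext1 _ w, hw1.le, self_mem_ext1 _ w, hw0, hw1, hwp.ge, ?_⟩⟩
  intro b hb
  have hne : v b ^ p ≠ v w := by
    intro hbw
    have hb0 : b ≠ 0 := by
      rintro rfl
      rw [map_zero, zero_pow hp.ne_zero] at hbw
      exact hvw0 hbw.symm
    obtain ⟨k, i, hki⟩ := hval b hb hb0
    apply h (k ^ p * (p : K) ^ i)
    have e : v (algebraMap K Ω k) ^ p * (v w ^ p) ^ i = v w := by
      calc v (algebraMap K Ω k) ^ p * (v w ^ p) ^ i = (v (algebraMap K Ω k) * v w ^ i) ^ p := by
            rw [mul_pow, ← pow_mul, ← pow_mul, mul_comm p i]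
        _ = v w := by rw [← hki, hbw]
    rw [map_mul, map_mul, map_pow, map_pow, map_pow, map_pow, map_natCast, ← hwp, e]
  have hwlt : v w ^ p < v w := by
    calc v w ^ p = v w ^ (p - 1) * v w := by
          rw [← pow_succ, Nat.sub_add_cancel hp.one_lt.le]
      _ < 1 * v w := by
          apply mul_lt_mul_of_pos_right _ hvw
          exact pow_lt_one' hw1 (by have := hp.one_lt; omega)
      _ = v w := one_mul _
  rcases lt_or_gt_of_ne hne with h1 | h1
  · rw [v.map_sub_eq_of_lt_left (by rwa [map_pow])]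
    exact hwlt
  · rw [v.map_sub_eq_of_lt_right (by rwa [map_pow]), map_pow]
    exact hwlt.trans h1

end

end Pool.Agent.H16R
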