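import Mathlib
import Pool.Graph.R_seed8.Y739.RDR.PPow
import Pool.Agent.H16R.Hensel

/-!
# Independent defect in the henselian separable-algebraic `p`-special extensions

The assembly follows `special_true` of the library; the field `K` is not assumed to be henselian.
-/

set_option autoImplicit false

universe u

namespace Pool.Agent.H16R

open Polynomial Module Pool.Agent.Helper975.RDR Pool.Agent.Y739.RDR

theorem special_main (K : Type u) [Field K] (A : ValuationSubring K) (hA : A ≠ ⊤)
    (hall : ∀ p : ℕ, p.Prime → CharP (IsLocalRing.ResidueField A) p →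
      ∀ (L : Type u) [Field L] [Algebra K L] [Algebra.IsSeparable K L], IsSpecial p L →
      ∀ B : ValuationSubring L, B.comap (algebraMap K L) = A → IsHenselianField B →
        IsIndependentDefectField B) :
    IsRoughlyDeeplyRamified A := by
  intro p hp hres
  by_contra hnot
  have hresv : A.valuation (p : K) < 1 := (R3.charP_residue_iff A p hp).1 hres
  have hstart := R4.start_data A hA p hp hresv hnot (fun h => R1.drvr_of_dense A hA p hp h)
  obtain ⟨Ab, hAb⟩ := exists_extension (Ω := AlgebraicClosure K) A
  have hlt : ∀ x y : K, A.valuation x < A.valuation y ↔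
      Ab.valuation (algebraMap K (AlgebraicClosure K) x) <
        Ab.valuation (algebraMap K (AlgebraicClosure K) y) := by
    intro x y; subst hAb; exact comap_val_lt Ab _ x y
  have hle : ∀ x y : K, A.valuation x ≤ A.valuation y ↔
      Ab.valuation (algebraMap K (AlgebraicClosure K) x) ≤
        Ab.valuation (algebraMap K (AlgebraicClosure K) y) := by
    intro x y; subst hAb; exact comap_val_le Ab _ x y
  have hvp : Ab.valuation (p : AlgebraicClosure K) < 1 := by
    have h1 := (hlt (p : K) 1).1 (by rw [map_one]; exact hresv)
    rwa [map_natCast, map_one, map_one] at h1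
  -- characteristic
  have hchar : CharZero K ∨ CharP K p := by
    exact R4.r4_char A p hp hresv
  -- bad data
  have hBad : ∃ (a e : AlgebraicClosure K) (L : IntermediateField K (AlgebraicClosure K)),
      Bad Ab.valuation p a e L ∧ L ≤ separableClosure K (AlgebraicClosure K) := by
    rcases hstart with ⟨a, e, ha1, he0, he1, hpe, hbad⟩ | ⟨h0, hb⟩
    · refine ⟨algebraMap K _ a, algebraMap K _ e, ⊥, ⟨IntermediateField.algebraMap_mem _ a, ?_,
        IntermediateField.algebraMap_mem _ e, ?_, ?_, ?_, ?_⟩, bot_le⟩
      · have h1 := (hle a 1).1 (by rw [map_one]; exact ha1)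
        rwa [map_one, map_one] at h1
      · exact (_root_.map_ne_zero _).2 he0
      · have h1 := (hlt e 1).1 (by rw [map_one]; exact he1)
        rwa [map_one, map_one] at h1
      · have h1 := (hle (p : K) (e ^ p)).1 (by rw [map_pow]; exact hpe)
        rwa [map_natCast, map_pow, map_pow] at h1
      · intro b hb
        obtain ⟨k, rfl⟩ := IntermediateField.mem_bot.1 hb
        have h1 := (hlt (e ^ p) (a - k ^ p)).1 (by rw [map_pow]; exact hbad k)
        rwa [map_pow, map_pow, map_sub, map_pow] at h1
    · obtain ⟨a, e, L, hB⟩ := start_two' (K := K) Ab.valuation hp hvp (by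
          have : CharZero (AlgebraicClosure K) :=
            charZero_of_injective_algebraMap (algebraMap K (AlgebraicClosure K)).injective
          exact_mod_cast hp.ne_zero) (by
          intro b hb2
          apply hb b
          apply le_antisymm
          · rw [← map_pow, hle, map_pow, map_pow, map_natCast]; exact hb2.le
          · rw [← map_pow, hle, map_pow, map_pow, map_natCast]; exact hb2.ge)
      refine ⟨a, e, L, hB, ?_⟩
      have h2 : separableClosure K (AlgebraicClosure K) = ⊤ :=
        (separableClosure.eq_top_iff K _).2 inferInstance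
      rw [h2]; exact le_top
  obtain ⟨a, e, L0, hB0, hL0⟩ := hBad
  obtain ⟨L, hB, hLs, hinv, hSmall, hSpec, hn⟩ := exists_sep_bad Ab.valuation hp hchar hB0 hL0
  have hLsep : Algebra.IsSeparable K L := (le_separableClosure_iff K _ L).1 hLs
  have hens : IsHenselianField (Ab.comap (algebraMap L (AlgebraicClosure K))) :=
    hensel_of_invariant Ab L hinv
  have hGood : GoodEta Ab.valuation p L := by
    rcases hchar with h0 | h0
    · have : CharZero (AlgebraicClosure K) :=
        charZero_of_injective_algebraMap (algebraMap K (AlgebraicClosure K)).injective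
      exact kummer_eta Ab.valuation hp hSmall hB hn
    · have : CharP (AlgebraicClosure K) p := charP_of_injective_algebraMap
        (algebraMap K (AlgebraicClosure K)).injective p
      exact as_eta Ab.valuation hp hSmall hB hn
  obtain ⟨η, F, hF, hFd, hFη, hNM, hsep, hroots, hσ⟩ := hGood
  have hGal := galois_of L hFη hsep hroots
  have hfin : Module.finrank L (IntermediateField.adjoin L {η}) = p := by
    have hint : IsIntegral L η := ⟨F, hF, by rwa [aeval_def] at hFη⟩
    rw [IntermediateField.adjoin.finrank hint]
    exact degree_eta Ab.valuation hSmall hNM hF hFd hFη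
  have hLA : (Ab.comap (algebraMap L (AlgebraicClosure K))).comap (algebraMap K L) = A := by
    rw [ValuationSubring.comap_comap]
    exact hAb
  have hIDF := hall p hp hres L (special_of hSpec) (Ab.comap (algebraMap L (AlgebraicClosure K))) hLA
    hens
  have hcharL : CharP (IsLocalRing.ResidueField (Ab.comap (algebraMap L (AlgebraicClosure K)))) p := by
    rw [R3.charP_residue_iff _ p hp]
    have h1 := (comap_val_lt Ab (algebraMap L (AlgebraicClosure K)) (p : L) 1).2 (by
      rw [map_natCast, map_one, map_one]; exact hvp)
    rwa [map_one] at h1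
  have hK' : (CharZero L ∧ IsCyclotomicExtension {p} L L) ∨
      (CharP L p ∧ Function.Bijective (algebraMap L L)) := by
    rcases hchar with h0 | h0
    · left
      have hcz : CharZero (AlgebraicClosure K) :=
        charZero_of_injective_algebraMap (algebraMap K (AlgebraicClosure K)).injective
      have hczL : CharZero L := charZero_of_injective_algebraMap (algebraMap K L).injective
      refine ⟨hczL, ?_⟩
      have hne : ((p : ℕ) : AlgebraicClosure K) ≠ 0 := by exact_mod_cast hp.ne_zero
      have : NeZero ((p : ℕ) : AlgebraicClosure K) := ⟨hne⟩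
      obtain ⟨ζ, hζ⟩ := IsAlgClosed.exists_root (cyclotomic p (AlgebraicClosure K)) (by
        rw [degree_cyclotomic]
        have : 0 < Nat.totient p := Nat.totient_pos.2 hp.pos
        exact_mod_cast this.ne')
      have hζ' : IsPrimitiveRoot ζ p := isRoot_cyclotomic_iff.1 hζ
      have hζL : ζ ∈ L := by
        have hp1 : p - 1 ≠ 0 := by have := hp.one_lt; omega
        apply small_root hSmall (G := cyclotomic p L) (cyclotomic_ne_zero p L)
        · rw [natDegree_cyclotomic, Nat.totient_prime hp]
          have := hp.pos; omega
        · have h1 : aeval ζ (cyclotomic p L) = eval ζ (cyclotomic p (AlgebraicClosure K)) := by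
            rw [← map_cyclotomic p (algebraMap L (AlgebraicClosure K)), eval_map_algebraMap]
          rw [h1]; exact hζ
      refine ⟨?_, ?_⟩
      · intro n hn _
        rw [Set.mem_singleton_iff] at hn
        subst hn
        refine ⟨⟨ζ, hζL⟩, ?_⟩
        exact (IsPrimitiveRoot.map_iff_of_injective (f := algebraMap L (AlgebraicClosure K))
          (algebraMap L (AlgebraicClosure K)).injective).1 hζ'
      · intro x
        exact (Algebra.adjoin L _).algebraMap_mem x
    · right
      have : CharP L p := charP_of_injective_algebraMap (algebraMap K L).injective p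
      exact ⟨this, Function.bijective_id⟩
  have hfinal := hIDF p hp hcharL L hK' (Ab.comap (algebraMap L (AlgebraicClosure K))) rfl
    (IntermediateField.adjoin L {η}) hfin
    (Ab.comap (algebraMap (IntermediateField.adjoin L {η}) (AlgebraicClosure K))) rfl ?_ ?_
  · exact not_independent Ab hp hSmall hNM hF hFd hFη hσ _ rfl _ rfl hfinal
  · intro C hC
    have i1 : Algebra.IsAlgebraic L (AlgebraicClosure K) :=
      Algebra.IsAlgebraic.tower_top (K := K) L
    have i2 : Algebra.IsAlgebraic L (IntermediateField.adjoin L {η}) := inferInstance
    obtain ⟨D, hD, hDu⟩ := hens (IntermediateField.adjoin L {η})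
    rw [hDu C hC]
    refine (hDu _ ?_).symm
    change (Ab.comap _).comap _ = _
    rw [ValuationSubring.comap_comap]
    rfl
  · apply R2.defect_gt_one _ p hp hfin
    intro f hf
    obtain ⟨g, hg, hgf⟩ := exists_poly hp.pos hF hFd hFη f.2
    have hf0 : aeval η g ≠ 0 := by
      rw [hgf]
      intro h0
      exact hf (Subtype.ext h0)
    obtain ⟨l, hl, hlt'⟩ := approx Ab.valuation hSmall hNM hg hf0
    refine ⟨⟨l, hl⟩, ?_⟩
    rw [comap_val_lt]
    rw [hgf] at hlt'
    exact hlt'

/-- A valued field is roughly deeply ramified if all its henselian separable-algebraic extensions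
whose finite extensions have degree a power of `p` are independent defect fields. -/
theorem main (K : Type u) [Field K] (A : ValuationSubring K) (hA : A ≠ ⊤)
    (hall : ∀ p : ℕ, p.Prime → CharP (IsLocalRing.ResidueField A) p →
      ∀ (L : Type u) [Field L] [Algebra K L] [Algebra.IsSeparable K L],
      (∀ (M : Type u) [Field M] [Algebra L M] [FiniteDimensional L M],
        ∃ k : ℕ, finrank L M = p ^ k) →
      ∀ B : ValuationSubring L, B.comap (algebraMap K L) = A → IsHenselianField B →
        IsIndependentDefectField B) :
    IsRoughlyDeeplyRamified A := by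
  refine special_main K A hA fun p hp hres L _ _ _ hL B hB hBh => ?_
  have hresv : A.valuation (p : K) < 1 := (R3.charP_residue_iff A p hp).1 hres
  have hc : CharZero L ∨ CharP L p := by
    rcases R4.r4_char A p hp hresv with h0 | h0
    · exact Or.inl (charZero_of_injective_algebraMap (algebraMap K L).injective)
    · exact Or.inr (charP_of_injective_algebraMap (algebraMap K L).injective p)
  exact hall p hp hres L (fun M _ _ _ => pow_of_special hp L hc hL M) B hB hBh

end Pool.Agent.H16R
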